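import Pool.Agent.Helper48.Lang.Goals

/-!
# Project LANG, packet CHAIN: chain rule for linear substitutions with coefficient functionals
-/

set_option autoImplicit false

namespace Pool.Agent.Helper66.Lang

noncomputable section

open MvPolynomial Finset Pool.Agent.Helper48.Lang

universe u v

section Sub

variable {K : Type u} [Field K] {n N : ℕ}

/-- the linear forms -/
def LL (e : Fin n → Fin N → K) (i : Fin n) : MvPolynomial (Fin N) K := ∑ c, C (e i c) * X c

lemma eval_LL (e : Fin n → Fin N → K) (x : Fin N → K) (i : Fin n) :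
    eval x (LL e i) = ∑ c, e i c * x c := by
  simp [LL]

lemma pderiv_LL (e : Fin n → Fin N → K) (c : Fin N) (i : Fin n) :
    pderiv c (LL e i) = C (e i c) := by
  unfold LL
  rw [map_sum, sum_eq_single c]
  · rw [pderiv_C_mul, pderiv_X_self, mul_one]
  · intro b _ hb
    rw [pderiv_C_mul, pderiv_X_of_ne hb, mul_zero]
  · intro h
    exact absurd (mem_univ c) h

lemma pderiv_sub (e : Fin n → Fin N → K) (c : Fin N) (f : MvPolynomial (Fin n) K) :
    pderiv c (bind₁ (LL e) f) = ∑ i, bind₁ (LL e) (pderiv i f) * C (e i c) := by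
  induction f using MvPolynomial.induction_on with
  | C a => simp
  | add p q hp hq =>
    simp only [map_add, hp, hq, add_mul, sum_add_distrib]
  | mul_X p j hp =>
    have h1 : ∀ i, bind₁ (LL e) (pderiv i (p * X j)) * C (e i c) =
        bind₁ (LL e) (pderiv i p) * C (e i c) * LL e j +
          bind₁ (LL e) p * (if j = i then C (e i c) else 0) := by
      intro i
      rw [pderiv_mul, map_add, map_mul, map_mul, bind₁_X_right]
      by_cases hij : j = i
      · subst hij
        rw [pderiv_X_self, map_one, if_pos rfl]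
        ring
      · rw [pderiv_X_of_ne hij, map_zero, if_neg hij]
        ring
    rw [map_mul, bind₁_X_right, pderiv_mul, hp, pderiv_LL, sum_congr rfl (fun i _ => h1 i),
      sum_add_distrib, ← sum_mul, ← mul_sum, sum_ite_eq, if_pos (mem_univ j)]

lemma eval_sub' (e : Fin n → Fin N → K) (x : Fin N → K) (f : MvPolynomial (Fin n) K) :
    eval x (bind₁ (LL e) f) = eval (fun i => ∑ c, e i c * x c) f := by
  induction f using MvPolynomial.induction_on with
  | C a => simp
  | add p q hp hq => rw [map_add, map_add, map_add, hp, hq]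
  | mul_X p j hp => rw [map_mul, map_mul, map_mul, bind₁_X_right, hp, eval_LL, eval_X]

lemma D1_sub (e : Fin n → Fin N → K) (x w : Fin N → K) (f : MvPolynomial (Fin n) K) :
    D1 (bind₁ (LL e) f) x w =
      D1 f (fun i => ∑ c, e i c * x c) (fun i => ∑ c, e i c * w c) := by
  unfold D1
  simp only [pderiv_sub, map_sum, map_mul, eval_sub', eval_C, sum_mul, mul_sum]
  rw [sum_comm]
  refine sum_congr rfl (fun i _ => sum_congr rfl (fun c _ => ?_))
  ring

lemma D2_eq (P : MvPolynomial (Fin n) K) (x w : Fin n → K) :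
    D2 P x w = ∑ q, D1 (pderiv q P) x w * w q := by
  unfold D2 D1
  rw [sum_comm]
  refine sum_congr rfl (fun q _ => ?_)
  rw [sum_mul]
  refine sum_congr rfl (fun p _ => ?_)
  ring

lemma D1_sum_C {ι : Type} (s : Finset ι) (g : ι → MvPolynomial (Fin n) K) (a : ι → K)
    (x w : Fin n → K) :
    D1 (∑ i ∈ s, g i * C (a i)) x w = ∑ i ∈ s, D1 (g i) x w * a i := by
  unfold D1
  simp only [map_sum, sum_mul]
  rw [sum_comm]
  refine sum_congr rfl (fun i _ => sum_congr rfl (fun p _ => ?_))
  rw [pderiv_mul, pderiv_C]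
  simp
  ring

lemma D2_sub (e : Fin n → Fin N → K) (x w : Fin N → K) (f : MvPolynomial (Fin n) K) :
    D2 (bind₁ (LL e) f) x w =
      D2 f (fun i => ∑ c, e i c * x c) (fun i => ∑ c, e i c * w c) := by
  rw [D2_eq, D2_eq]
  simp only [pderiv_sub, D1_sum_C, D1_sub, sum_mul, mul_sum]
  rw [sum_comm]
  refine sum_congr rfl (fun i _ => sum_congr rfl (fun c _ => ?_))
  ring

lemma hom_sub (e : Fin n → Fin N → K) {D : ℕ} (f : MvPolynomial (Fin n) K)
    (hf : f.IsHomogeneous D) : (bind₁ (LL e) f).IsHomogeneous D := by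
  have h := hf.aeval (LL e) (n := 1) (fun i => by
    unfold LL
    apply IsHomogeneous.sum
    intro c _
    exact (isHomogeneous_X _ _).C_mul _)
  rw [one_mul] at h
  exact h

end Sub

section Fun

variable {R : Type v} {K : Type u} [Field R] [Field K] [Algebra R K] {N : ℕ}

/-- a functional applied to the coefficients -/
def PH (φ : K →ₗ[R] R) (G : MvPolynomial (Fin N) K) : MvPolynomial (Fin N) R :=
  ∑ μ ∈ G.support, monomial μ (φ (coeff μ G))

lemma coeff_PH (φ : K →ₗ[R] R) (G : MvPolynomial (Fin N) K) (ν : Fin N →₀ ℕ) :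
    coeff ν (PH φ G) = φ (coeff ν G) := by
  unfold PH
  rw [coeff_sum]
  simp only [coeff_monomial]
  rw [sum_ite_eq']
  split_ifs with h
  · rfl
  · rw [notMem_support_iff.1 h, map_zero]

lemma PH_add (φ : K →ₗ[R] R) (G H : MvPolynomial (Fin N) K) : PH φ (G + H) = PH φ G + PH φ H := by
  ext ν
  rw [coeff_add, coeff_PH, coeff_PH, coeff_PH, coeff_add, map_add]

lemma PH_hom (φ : K →ₗ[R] R) {D : ℕ} (G : MvPolynomial (Fin N) K) (hG : G.IsHomogeneous D) :
    (PH φ G).IsHomogeneous D := by
  intro ν hν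
  rw [coeff_PH] at hν
  apply hG
  intro h
  rw [h, map_zero] at hν
  exact hν rfl

lemma pderiv_PH (φ : K →ₗ[R] R) (G : MvPolynomial (Fin N) K) (p : Fin N) :
    pderiv p (PH φ G) = PH φ (pderiv p G) := by
  ext ν
  rw [coeff_PH, coeff_pderiv, coeff_pderiv, coeff_PH]
  have h : coeff (ν + Finsupp.single p 1) G * ((ν p : K) + 1) =
      ((ν p : R) + 1) • coeff (ν + Finsupp.single p 1) G := by
    rw [Algebra.smul_def, map_add, map_natCast, map_one, mul_comm]
  rw [h, map_smul, smul_eq_mul, mul_comm]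

lemma eval_PH (φ : K →ₗ[R] R) (G : MvPolynomial (Fin N) K) (z : Fin N → R) :
    eval z (PH φ G) = φ (eval (fun p => algebraMap R K (z p)) G) := by
  unfold PH
  rw [map_sum, eval_eq', map_sum]
  refine sum_congr rfl (fun μ _ => ?_)
  rw [eval_monomial, Finsupp.prod_fintype _ _ (fun i => pow_zero _)]
  have h : coeff μ G * ∏ i, (algebraMap R K (z i)) ^ μ i = (∏ i, z i ^ μ i) • coeff μ G := by
    rw [Algebra.smul_def, map_prod, mul_comm]
    simp only [map_pow]
  rw [h, map_smul, smul_eq_mul, mul_comm]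

lemma D1_PH (φ : K →ₗ[R] R) (G : MvPolynomial (Fin N) K) (z w : Fin N → R) :
    D1 (PH φ G) z w =
      φ (D1 G (fun p => algebraMap R K (z p)) (fun p => algebraMap R K (w p))) := by
  unfold D1
  rw [map_sum]
  refine sum_congr rfl (fun p _ => ?_)
  rw [pderiv_PH, eval_PH, mul_comm _ (algebraMap R K (w p)), ← Algebra.smul_def, map_smul,
    smul_eq_mul, mul_comm]

lemma D2_PH (φ : K →ₗ[R] R) (G : MvPolynomial (Fin N) K) (z w : Fin N → R) :
    D2 (PH φ G) z w =
      φ (D2 G (fun p => algebraMap R K (z p)) (fun p => algebraMap R K (w p))) := by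
  unfold D2
  rw [map_sum]
  refine sum_congr rfl (fun p _ => ?_)
  rw [map_sum]
  refine sum_congr rfl (fun q _ => ?_)
  rw [pderiv_PH, pderiv_PH, eval_PH, ← map_mul,
    mul_comm _ (algebraMap R K (w p * w q)), ← Algebra.smul_def, map_smul,
    smul_eq_mul, mul_comm]

end Fun

theorem c_chain : S_CHAIN.{u, v} := by
  intro R K _ _ _ n N D f hf e φ
  refine ⟨PH φ (bind₁ (LL e) f), PH_hom φ _ (hom_sub e f hf), ?_⟩
  intro z w
  have hE : ∀ z : Fin N → R, (fun i => ∑ c, e i c * algebraMap R K (z c)) =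
      (fun i => ∑ c, z c • e i c) := by
    intro z
    funext i
    refine sum_congr rfl (fun c _ => ?_)
    rw [Algebra.smul_def, mul_comm]
  refine ⟨?_, ?_, ?_⟩
  · rw [eval_PH, eval_sub', hE]
  · rw [D1_PH, D1_sub, hE, hE]
  · rw [D2_PH, D2_sub, hE, hE]

end

end Pool.Agent.Helper66.Lang
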