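import Pool.Agent.Helper48.Lang.Goals
import Pool.Agent.Helper70.RC.Goals

/-!
# Project LANG, packet MPT: transfer of the minimum principle to all real closed fields
-/

set_option autoImplicit false

namespace Pool.Agent.Helper66.Lang

noncomputable section

open MvPolynomial Finset Pool.Agent.Helper48.Lang

universe u v w

variable {N k : ℕ}

/-- the index set of the auxiliary unknowns `x, L, M` -/
abbrev BB (N k : ℕ) : Type := Fin N ⊕ (Fin N × Fin N) ⊕ (Fin k × Fin N)

/-- the polynomial with exponents in `S l` and coefficients `c` -/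
def GP (S : Fin k → Finset (Fin N →₀ ℕ)) {A : Type v} [CommRing A] (c : (Σ l, S l) → A)
    (l : Fin k) : MvPolynomial (Fin N) A :=
  ∑ d : S l, monomial (d : Fin N →₀ ℕ) (c ⟨l, d⟩)

lemma map_GP (S : Fin k → Finset (Fin N →₀ ℕ)) {A : Type v} {B : Type w} [CommRing A] [CommRing B]
    (φ : A →+* B) (c : (Σ l, S l) → A) (l : Fin k) :
    map φ (GP S c l) = GP S (fun a => φ (c a)) l := by
  unfold GP
  rw [map_sum]
  exact sum_congr rfl (fun d _ => map_monomial _ _ _)

lemma GP_self {A : Type v} [CommRing A] (F : Fin k → MvPolynomial (Fin N) A) (l : Fin k) :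
    GP (fun l => (F l).support) (fun a => coeff (a.2 : Fin N →₀ ℕ) (F a.1)) l = F l := by
  unfold GP
  rw [Finset.sum_coe_sort (F l).support (fun d => monomial d (coeff d (F l)))]
  exact (F l).support_sum_monomial_coeff

lemma GP_hom (S : Fin k → Finset (Fin N →₀ ℕ)) (D : Fin k → ℕ)
    (hS : ∀ l, ∀ d ∈ S l, Finsupp.degree d = D l) {A : Type v} [CommRing A]
    (c : (Σ l, S l) → A) (l : Fin k) : (GP S c l).IsHomogeneous (D l) := by
  unfold GP
  apply IsHomogeneous.sum
  intro d _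
  apply isHomogeneous_monomial
  exact hS l d.1 d.2

/-- difference of both sides of the minimum principle -/
def EQ (S : Fin k → Finset (Fin N →₀ ℕ)) {A : Type v} [CommRing A] (c : (Σ l, S l) → A)
    (y : BB N k → A) (p q : Fin N) : A :=
  ∑ l, eval (fun j => y (Sum.inl j)) (GP S c l) *
      eval (fun j => y (Sum.inl j)) (pderiv p (pderiv q (GP S c l)))
    - ((∑ l, eval (fun j => y (Sum.inl j)) (GP S c l) ^ 2) * (if p = q then 1 else 0)
      + ∑ a, y (Sum.inr (Sum.inl (a, p))) * y (Sum.inr (Sum.inl (a, q)))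
      + ∑ l, (y (Sum.inr (Sum.inr (l, p))) *
          eval (fun j => y (Sum.inl j)) (pderiv q (GP S c l))
        + y (Sum.inr (Sum.inr (l, q))) *
          eval (fun j => y (Sum.inl j)) (pderiv p (GP S c l))))

lemma map_EQ (S : Fin k → Finset (Fin N →₀ ℕ)) {A : Type v} {B : Type w} [CommRing A] [CommRing B]
    (φ : A →+* B) (c : (Σ l, S l) → A) (y : BB N k → A) (p q : Fin N) :
    φ (EQ S c y p q) = EQ S (fun a => φ (c a)) (fun b => φ (y b)) p q := by
  have h : ∀ P : MvPolynomial (Fin N) A, φ (eval (fun j => y (Sum.inl j)) P) =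
      eval (fun j => φ (y (Sum.inl j))) (map φ P) := by
    intro P
    exact map_eval φ _ P
  unfold EQ
  simp only [map_sub, map_add, map_sum, map_mul, map_pow, h, ← pderiv_map, map_GP]
  have h2 : φ (if p = q then 1 else 0) = if p = q then 1 else 0 := by
    split_ifs
    · exact map_one φ
    · exact map_zero φ
  rw [h2]

/-- the integer polynomials -/
def PP (S : Fin k → Finset (Fin N →₀ ℕ)) :
    Unit ⊕ (Fin N × Fin N) → MvPolynomial ((Σ l, S l) ⊕ BB N k) ℤ :=
  Sum.elim (fun _ => ∑ p, X (Sum.inr (Sum.inl p)) ^ 2 - 1)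
    (fun a => EQ S (fun s => X (Sum.inl s)) (fun b => X (Sum.inr b)) a.1 a.2)

lemma PP_val (S : Fin k → Finset (Fin N →₀ ℕ)) {A : Type v} [CommRing A] (c : (Σ l, S l) → A)
    (y : BB N k → A) :
    (aeval (Sum.elim c y) (PP S (Sum.inl ())) = ∑ p, y (Sum.inl p) ^ 2 - 1) ∧
    ∀ a, aeval (Sum.elim c y) (PP S (Sum.inr a)) = EQ S c y a.1 a.2 := by
  constructor
  · simp [PP]
  · intro a
    have h1 := map_EQ S (aeval (Sum.elim c y) : MvPolynomial ((Σ l, S l) ⊕ BB N k) ℤ →ₐ[ℤ] A).toRingHom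
      (fun s => X (Sum.inl s)) (fun b => X (Sum.inr b)) a.1 a.2
    refine h1.trans ?_
    have e1 : (fun s : (Σ l, S l) => (aeval (Sum.elim c y) :
        MvPolynomial ((Σ l, S l) ⊕ BB N k) ℤ →ₐ[ℤ] A).toRingHom (X (Sum.inl s))) = c := by
      funext s
      simp
    have e2 : (fun b : BB N k => (aeval (Sum.elim c y) :
        MvPolynomial ((Σ l, S l) ⊕ BB N k) ℤ →ₐ[ℤ] A).toRingHom (X (Sum.inr b))) = y := by
      funext b
      simp
    rw [e1, e2]

theorem c_mpt (h1 : Pool.Agent.Helper70.RC.TT.{u}) (h2 : S_MPR) : S_MPT.{u} := by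
  intro R _ _ N k F D hN hD hF
  have hS : ∀ l, ∀ d ∈ (F l).support, Finsupp.degree d = D l := by
    intro l d hd
    exact ((hF l).degree_eq_sum_deg_support hd).symm
  obtain ⟨y, hy⟩ := h1 _ _ _ (PP (fun l => (F l).support)) (by
    intro c
    obtain ⟨x, L, M, hx, hxy⟩ := h2 N k (GP (fun l => (F l).support) c) D hN hD
      (GP_hom _ D hS c)
    refine ⟨Sum.elim x (Sum.elim (fun a => L a.1 a.2) (fun a => M a.1 a.2)), ?_⟩
    obtain ⟨p1, p2⟩ := PP_val (fun l => (F l).support) c
      (Sum.elim x (Sum.elim (fun a => L a.1 a.2) (fun a => M a.1 a.2)))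
    rintro (l | a)
    · rw [p1]
      simp only [Sum.elim_inl]
      rw [hx, sub_self]
    · rw [p2]
      unfold EQ
      simp only [Sum.elim_inl, Sum.elim_inr]
      rw [sub_eq_zero]
      exact hxy a.1 a.2) R (fun a => coeff (a.2 : Fin N →₀ ℕ) (F a.1))
  obtain ⟨p1, p2⟩ := PP_val (fun l => (F l).support)
    (fun a => coeff (a.2 : Fin N →₀ ℕ) (F a.1)) y
  refine ⟨fun p => y (Sum.inl p), fun a p => y (Sum.inr (Sum.inl (a, p))),
    fun l p => y (Sum.inr (Sum.inr (l, p))), ?_, ?_⟩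
  · have h3 := hy (Sum.inl ())
    rw [p1] at h3
    exact sub_eq_zero.1 h3
  · intro p q
    have h3 := hy (Sum.inr (p, q))
    rw [p2] at h3
    unfold EQ at h3
    simp only [GP_self] at h3
    exact sub_eq_zero.1 h3

end

end Pool.Agent.Helper66.Lang
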